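import Pool.Agent.Helper20.GT.Stm2

set_option autoImplicit false

open Finset Filter Topology
open scoped Classical

namespace Pool.Agent.Helper68.GT2

open Pool.Agent.Helper20.GT2

lemma cast_split (d m : ℕ) : (d : ℝ) = m * ((d / m : ℕ) : ℝ) + ((d % m : ℕ) : ℝ) := by
  exact_mod_cast (Nat.div_add_mod d m).symm

lemma countA (M m1 m2 : ℕ) (x1 : ℕ → ℝ) (q : ℝ) (h2 : 1 ≤ m2) (h : ∀ d < M, d / m2 < m1) (hq : |q| ≤ 1) :
    (cells M (fun d => m2 * x1 (d / m2)) q).card ≤ (cells m1 x1 q).card * (3 * m2) := by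
  have hsub : cells M (fun d => m2 * x1 (d / m2)) q ⊆ (cells m1 x1 q).biUnion
      (fun z => Finset.Ico ((m2 : ℤ) * z - m2) ((m2 : ℤ) * z + 2 * m2)) := by
    intro z hz
    unfold cells at hz
    rw [Finset.mem_image] at hz
    obtain ⟨d, hd, rfl⟩ := hz
    rw [Finset.mem_range] at hd
    rw [Finset.mem_biUnion]
    refine ⟨⌊x1 (d / m2) + q * ((d / m2 : ℕ) : ℝ)⌋, ?_, ?_⟩
    · unfold cells
      rw [Finset.mem_image]
      exact ⟨d / m2, Finset.mem_range.2 (h d hd), rfl⟩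
    · set u := x1 (d / m2) + q * ((d / m2 : ℕ) : ℝ) with hu
      have e1 : (m2 : ℝ) * x1 (d / m2) + q * d = m2 * u + q * ((d % m2 : ℕ) : ℝ) := by
        rw [hu]
        conv_lhs => rw [cast_split d m2]
        ring
      have e2 : ((d % m2 : ℕ) : ℝ) ≤ m2 := by exact_mod_cast (Nat.mod_lt d (by omega)).le
      have e3 : |q * ((d % m2 : ℕ) : ℝ)| ≤ m2 := by
        rw [abs_mul, Nat.abs_cast]
        calc |q| * ((d % m2 : ℕ) : ℝ) ≤ 1 * m2 := mul_le_mul hq e2 (Nat.cast_nonneg _) (by norm_num)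
          _ = m2 := one_mul _
      rw [abs_le] at e3
      have e4 := Int.floor_le u
      have e5 := Int.lt_floor_add_one u
      have hm : (0 : ℝ) < m2 := by exact_mod_cast h2
      rw [Finset.mem_Ico]
      constructor
      · rw [Int.le_floor]
        push_cast
        rw [e1]
        have := mul_le_mul_of_nonneg_left e4 hm.le
        linarith [e3.1]
      · rw [Int.floor_lt]
        push_cast
        rw [e1]
        have := mul_lt_mul_of_pos_left e5 hm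
        linarith [e3.2]
  refine (Finset.card_le_card hsub).trans ?_
  apply Finset.card_biUnion_le_card_mul
  intro z _
  rw [Int.card_Ico]
  apply le_of_eq
  have : (m2 : ℤ) * z + 2 * m2 - ((m2 : ℤ) * z - m2) = ((3 * m2 : ℕ) : ℤ) := by
    push_cast
    ring
  rw [this, Int.toNat_natCast]

lemma countB (M m1 m2 : ℕ) (x1 : ℕ → ℝ) (q : ℝ) (h2 : 1 ≤ m2) (h : ∀ d < M, d / m2 < m1) (hq : |q| * m2 ≤ 4) :
    (cells M (fun d => m2 * x1 (d / m2)) q).card ≤ m1 * 9 := by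
  have hsub : cells M (fun d => m2 * x1 (d / m2)) q ⊆ (Finset.range m1).biUnion
      (fun d1 => Finset.Icc (⌊(m2 : ℝ) * (x1 d1 + q * (d1 : ℝ))⌋ - 4) (⌊(m2 : ℝ) * (x1 d1 + q * (d1 : ℝ))⌋ + 4)) := by
    intro z hz
    unfold cells at hz
    rw [Finset.mem_image] at hz
    obtain ⟨d, hd, rfl⟩ := hz
    rw [Finset.mem_range] at hd
    rw [Finset.mem_biUnion]
    refine ⟨d / m2, Finset.mem_range.2 (h d hd), ?_⟩
    set u := x1 (d / m2) + q * ((d / m2 : ℕ) : ℝ) with hu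
    have e1 : (m2 : ℝ) * x1 (d / m2) + q * d = m2 * u + q * ((d % m2 : ℕ) : ℝ) := by
      rw [hu]
      conv_lhs => rw [cast_split d m2]
      ring
    have e2 : ((d % m2 : ℕ) : ℝ) ≤ m2 := by exact_mod_cast (Nat.mod_lt d (by omega)).le
    have e3 : |q * ((d % m2 : ℕ) : ℝ)| ≤ 4 := by
      rw [abs_mul, Nat.abs_cast]
      exact (mul_le_mul_of_nonneg_left e2 (abs_nonneg q)).trans hq
    rw [abs_le] at e3
    have e4 := Int.floor_le ((m2 : ℝ) * u)
    have e5 := Int.lt_floor_add_one ((m2 : ℝ) * u)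
    rw [Finset.mem_Icc]
    constructor
    · rw [Int.le_floor]
      push_cast
      rw [e1]
      linarith [e3.1]
    · rw [← Int.lt_add_one_iff, Int.floor_lt]
      push_cast
      rw [e1]
      linarith [e3.2]
  refine (Finset.card_le_card hsub).trans ?_
  refine (Finset.card_biUnion_le_card_mul _ _ 9 ?_).trans (by rw [Finset.card_range])
  intro z _
  rw [Int.card_Icc]
  omega

theorem gpb : S_GPB := by
  intro hcore L hL
  obtain ⟨C0, hC0, hmain⟩ := hcore L hL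
  have hL0 : 0 < L := by linarith
  have hLj : ∀ j : ℕ, 1 ≤ L ^ j := fun j => one_le_pow₀ (by linarith)
  have hbase : ∀ q ∈ base L, |q| ≤ 1 := by
    intro q hq
    rcases hq with rfl | ⟨j, rfl | rfl⟩
    · simp
    · have hp : 0 < L ^ j := by positivity
      rw [abs_of_pos (by positivity), div_le_one hp]
      exact hLj j
    · have hp : 0 < L ^ j := by positivity
      rw [abs_neg, abs_of_pos (by positivity), div_le_one hp]
      exact hLj j
  refine ⟨18 * C0, by linarith, fun q hq => (hbase q hq).trans (by linarith), ?_⟩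
  intro M hM
  have hM1 : (1 : ℝ) ≤ M := by exact_mod_cast hM
  have hM0 : (0 : ℝ) < M := by linarith
  set y : ℝ := (M : ℝ) ^ (1 / 15 : ℝ) with hy
  have hy1 : 1 ≤ y := Real.one_le_rpow hM1 (by norm_num)
  have hyM : y ≤ M := by
    calc y ≤ (M : ℝ) ^ (1 : ℝ) := Real.rpow_le_rpow_of_exponent_le hM1 (by norm_num)
      _ = M := Real.rpow_one _
  set m2 : ℕ := ⌈y⌉₊ with hm2
  have h21 : y ≤ m2 := Nat.le_ceil y
  have h22 : (m2 : ℝ) ≤ 2 * y := by
    have := Nat.ceil_lt_add_one (by linarith : 0 ≤ y)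
    linarith
  have h23 : 1 ≤ m2 := by
    have : (1 : ℝ) ≤ m2 := hy1.trans h21
    exact_mod_cast this
  have h24 : m2 ≤ M := by
    rw [hm2, Nat.ceil_le]
    exact hyM
  set m1 : ℕ := M / m2 + 1 with hm1
  have h11 : 1 ≤ m1 := by
    rw [hm1]
    exact Nat.le_add_left 1 _
  have h12 : m1 * m2 ≤ 2 * M := by
    have := Nat.div_mul_le_self M m2
    rw [hm1, add_mul]
    omega
  have h13 : M < m1 * m2 := by
    have := Nat.lt_mul_div_succ M (show 0 < m2 by omega)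
    rw [hm1, mul_comm]
    exact this
  have hdiv : ∀ d < M, d / m2 < m1 := by
    intro d hd
    have : d / m2 ≤ M / m2 := Nat.div_le_div_right hd.le
    omega
  have h12r : (m1 : ℝ) * m2 ≤ 2 * M := by exact_mod_cast h12
  have h13r : (M : ℝ) ≤ m1 * m2 := by exact_mod_cast h13.le
  have hm1p : (0 : ℝ) < m1 := by exact_mod_cast h11
  have hm2p : (0 : ℝ) < m2 := by exact_mod_cast h23
  obtain ⟨x1, hx1, hx2⟩ := hmain m1 h11
  refine ⟨fun d => m2 * x1 (d / m2), ?_, ?_⟩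
  · intro d hd
    simp only
    rw [abs_mul, Nat.abs_cast]
    calc (m2 : ℝ) * |x1 (d / m2)| ≤ m2 * (C0 * m1) :=
          mul_le_mul_of_nonneg_left (hx1 _ (hdiv d hd)) hm2p.le
      _ = C0 * (m1 * m2) := by ring
      _ ≤ C0 * (2 * M) := mul_le_mul_of_nonneg_left h12r (by linarith)
      _ ≤ 18 * C0 * M := by nlinarith
  -- the two bounds
  have bA : ∀ q : ℝ, |q| ≤ 1 → ((cells m1 x1 q).card : ℝ) ≤ C0 * (m1 : ℝ) ^ (13 / 14 : ℝ) →
      ((cells M (fun d => m2 * x1 (d / m2)) q).card : ℝ) ≤ 18 * C0 * (M : ℝ) ^ (14 / 15 : ℝ) := by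
    intro q hq hcard
    have e1 := countA M m1 m2 x1 q h23 hdiv hq
    have e2 : ((cells M (fun d => m2 * x1 (d / m2)) q).card : ℝ) ≤ ((cells m1 x1 q).card : ℝ) * (3 * m2) := by
      exact_mod_cast e1
    have e3 : (m1 : ℝ) ^ (13 / 14 : ℝ) * m2 ≤ 2 * (M : ℝ) ^ (14 / 15 : ℝ) := by
      have f1 : (m2 : ℝ) = (m2 : ℝ) ^ (13 / 14 : ℝ) * (m2 : ℝ) ^ (1 / 14 : ℝ) := by
        rw [← Real.rpow_add hm2p]
        norm_num
      have f2 : (m1 : ℝ) ^ (13 / 14 : ℝ) * m2 = ((m1 : ℝ) * m2) ^ (13 / 14 : ℝ) * (m2 : ℝ) ^ (1 / 14 : ℝ) := by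
        rw [Real.mul_rpow hm1p.le hm2p.le, mul_assoc, ← f1]
      have f3 : ((m1 : ℝ) * m2) ^ (13 / 14 : ℝ) ≤ (2 * M) ^ (13 / 14 : ℝ) := Real.rpow_le_rpow (by positivity) h12r (by norm_num)
      have f4 : (m2 : ℝ) ^ (1 / 14 : ℝ) ≤ (2 * y) ^ (1 / 14 : ℝ) := Real.rpow_le_rpow hm2p.le h22 (by norm_num)
      have f5 : ((2 : ℝ) * M) ^ (13 / 14 : ℝ) * (2 * y) ^ (1 / 14 : ℝ) = 2 * (M : ℝ) ^ (14 / 15 : ℝ) := by
        rw [Real.mul_rpow (by norm_num) hM0.le, Real.mul_rpow (by norm_num) (by linarith), hy,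
          ← Real.rpow_mul hM0.le]
        have f6 : (2 : ℝ) ^ (13 / 14 : ℝ) * (2 : ℝ) ^ (1 / 14 : ℝ) = 2 := by
          rw [← Real.rpow_add (by norm_num)]
          norm_num
        calc (2 : ℝ) ^ (13 / 14 : ℝ) * (M : ℝ) ^ (13 / 14 : ℝ) * ((2 : ℝ) ^ (1 / 14 : ℝ) * (M : ℝ) ^ (1 / 15 * (1 / 14 : ℝ)))
            = ((2 : ℝ) ^ (13 / 14 : ℝ) * (2 : ℝ) ^ (1 / 14 : ℝ)) * ((M : ℝ) ^ (13 / 14 : ℝ) * (M : ℝ) ^ (1 / 15 * (1 / 14 : ℝ))) := by ring
          _ = _ := by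
              rw [f6, ← Real.rpow_add hM0]
              norm_num
      rw [f2, ← f5]
      exact mul_le_mul f3 f4 (by positivity) (by positivity)
    have e5 : 0 < (M : ℝ) ^ (14 / 15 : ℝ) := by positivity
    calc ((cells M (fun d => m2 * x1 (d / m2)) q).card : ℝ) ≤ ((cells m1 x1 q).card : ℝ) * (3 * m2) := e2
      _ ≤ (C0 * (m1 : ℝ) ^ (13 / 14 : ℝ)) * (3 * m2) := mul_le_mul_of_nonneg_right hcard (by positivity)
      _ = 3 * C0 * ((m1 : ℝ) ^ (13 / 14 : ℝ) * m2) := by ring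
      _ ≤ 3 * C0 * (2 * (M : ℝ) ^ (14 / 15 : ℝ)) := mul_le_mul_of_nonneg_left e3 (by linarith)
      _ ≤ 18 * C0 * (M : ℝ) ^ (14 / 15 : ℝ) := by nlinarith
  have bB : ∀ q : ℝ, |q| * m2 ≤ 4 →
      ((cells M (fun d => m2 * x1 (d / m2)) q).card : ℝ) ≤ 18 * C0 * (M : ℝ) ^ (14 / 15 : ℝ) := by
    intro q hq
    have e1 := countB M m1 m2 x1 q h23 hdiv hq
    have e2 : ((cells M (fun d => m2 * x1 (d / m2)) q).card : ℝ) ≤ (m1 : ℝ) * 9 := by
      exact_mod_cast e1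
    have e3 : (m1 : ℝ) ≤ 2 * (M : ℝ) ^ (14 / 15 : ℝ) := by
      have f1 : (M : ℝ) ^ (14 / 15 : ℝ) = M / y := by
        rw [show (14 / 15 : ℝ) = 1 - 1 / 15 by norm_num, hy, Real.rpow_sub hM0, Real.rpow_one]
      rw [f1, ← mul_div_assoc, le_div_iff₀ (by linarith)]
      calc (m1 : ℝ) * y ≤ m1 * m2 := mul_le_mul_of_nonneg_left h21 hm1p.le
        _ ≤ 2 * M := h12r
    have e5 : 0 < (M : ℝ) ^ (14 / 15 : ℝ) := by positivity
    calc ((cells M (fun d => m2 * x1 (d / m2)) q).card : ℝ) ≤ (m1 : ℝ) * 9 := e2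
      _ ≤ 18 * (M : ℝ) ^ (14 / 15 : ℝ) := by linarith
      _ ≤ 18 * C0 * (M : ℝ) ^ (14 / 15 : ℝ) := by nlinarith
  -- the small multipliers
  have hsmall : (m2 : ℝ) ≤ 4 * (m1 : ℝ) ^ (1 / 14 : ℝ) := by
    have f1 : (M : ℝ) ^ (14 / 15 : ℝ) / 2 ≤ m1 := by
      rw [show (14 / 15 : ℝ) = 1 - 1 / 15 by norm_num, Real.rpow_sub hM0, Real.rpow_one, ← hy, div_div, div_le_iff₀ (by linarith)]
      calc (M : ℝ) ≤ m1 * m2 := h13r
        _ ≤ m1 * (2 * y) := mul_le_mul_of_nonneg_left h22 hm1p.le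
        _ = m1 * (y * 2) := by ring
    have f2 : ((M : ℝ) ^ (14 / 15 : ℝ) / 2) ^ (1 / 14 : ℝ) ≤ (m1 : ℝ) ^ (1 / 14 : ℝ) := Real.rpow_le_rpow (by positivity) f1 (by norm_num)
    have f3 : y / 2 ≤ ((M : ℝ) ^ (14 / 15 : ℝ) / 2) ^ (1 / 14 : ℝ) := by
      rw [Real.div_rpow (by positivity) (by norm_num), ← Real.rpow_mul hM0.le]
      have g1 : y ≤ (M : ℝ) ^ ((14 / 15 : ℝ) * (1 / 14)) := by
        rw [hy]
        apply Real.rpow_le_rpow_of_exponent_le hM1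
        norm_num
      have g2 : (2 : ℝ) ^ (1 / 14 : ℝ) ≤ 2 := by
        calc (2 : ℝ) ^ (1 / 14 : ℝ) ≤ (2 : ℝ) ^ (1 : ℝ) := Real.rpow_le_rpow_of_exponent_le (by norm_num) (by norm_num)
          _ = 2 := Real.rpow_one _
      have g3 : (0 : ℝ) < (2 : ℝ) ^ (1 / 14 : ℝ) := by positivity
      exact div_le_div₀ (by positivity) g1 g3 g2
    linarith
  have key : ∀ j : ℕ, ¬ L ^ j ≤ (m1 : ℝ) ^ (1 / 14 : ℝ) → 1 / L ^ j * (m2 : ℝ) ≤ 4 := by
    intro j hj
    push Not at hj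
    have hp : 0 < L ^ j := by positivity
    rw [one_div, inv_mul_le_iff₀ hp]
    linarith
  intro q hq
  have hq1 := hbase q hq
  rcases hq with rfl | ⟨j, rfl | rfl⟩
  · exact bB 0 (by simp)
  · by_cases hj : L ^ j ≤ (m1 : ℝ) ^ (1 / 14 : ℝ)
    · exact bA _ hq1 (hx2 j hj).1
    · apply bB
      have hp : 0 < L ^ j := by positivity
      rw [abs_of_pos (by positivity)]
      exact key j hj
  · by_cases hj : L ^ j ≤ (m1 : ℝ) ^ (1 / 14 : ℝ)
    · exact bA _ hq1 (hx2 j hj).2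
    · apply bB
      have hp : 0 < L ^ j := by positivity
      rw [abs_neg, abs_of_pos (by positivity)]
      exact key j hj

end Pool.Agent.Helper68.GT2
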